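import Pool.Agent.Helper89_EWG.EWC
import Pool.Agent.Helper89_EWG.RKL
import Pool.Agent.Helper89_EWG.RKU
import Pool.Agent.Helper89_EWG.FIN
import Pool.Agent.Helper89_EWG.MIN
import Pool.Agent.Helper75_EWG.RK2
import Pool.Agent.Helper97_EWG.INJ
import Pool.Agent.Helper64_EWG.PNU
import Pool.Agent.Helper51_EWG.RSE
import Pool.Agent.Helper51_EWG.DUA
import Pool.Agent.Helper1_EWG.ALS
import Pool.Agent.Helper89_EWG.FAR
import Pool.Agent.Helper89_EWG.PAR
import Pool.Agent.Helper5_EWG.LSV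
import Pool.Agent.Helper89_EWG.BIL
import Pool.Agent.Helper53_EWG.SEP
import Pool.Agent.Helper29_EWG.BLT
import Pool.Agent.Helper19_EWG.VAU
import Pool.Agent.Helper64_EWG.TAU
import Pool.Agent.Helper76_EWG.TPB
import Pool.Agent.Helper51_EWG.TY1
import Pool.Agent.Helper11_EWG.TY2
import Pool.Agent.Helper36_EWG.BVD
import Pool.Agent.Helper50_EWG.BVF
import Pool.Agent.Helper50_EWG.BT2
import Pool.Agent.Helper19_EWG.SLL
import Pool.Agent.Helper98_EWG.MRG
import Pool.Agent.Helper82_EWG.PPW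
import Pool.Agent.Helper44_EWG.TOT
import Pool.Agent.Helper39_EWG.SWP
import Pool.Agent.Helper95_EWG.MDL
import Pool.Agent.Helper5_EWG.LOE
import Pool.Agent.Helper53_EWG.HIE
import Pool.Agent.Helper80_EWG.GOL
import Pool.Agent.Helper26_EWG.CNT
import Pool.Agent.Helper5_EWG.TWA
import Pool.Agent.Helper62_EWG.LOS
import Pool.Agent.Helper2_EWG.BVW

/-!
# MP_b66c3b_nt: the counting function of the Erdos-Woods numbers, lower bound of the order `n / log n`

The definitions are in `Pool/Agent/EWG/Defs.lean`.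
-/

set_option autoImplicit false

namespace Pool.Agent.Results.MP_b66c3b_nt.TwoPrimeCertificates

open Pool.Agent.EWG

theorem bt : Bt2Stmt := H50.bt2

theorem goldfeld : GolStmt := by
  have als := H1.als H51.dua
  have lsv := H5.lsv als H89.far H89.par
  have blt := H29.blt lsv H89.bil H53.sep
  have ty1 := H51.ty1 H76.tpb
  have ty2 := H11.ty2 blt H64.tau
  have bvd := H36.bvd H19.vau ty1 ty2
  have bvf := H50.bvf bvd
  have bvw := H2.bvw bvf
  exact H80.gol (H82.ppw bt) H44.tot H39.swp (H95.mdl bvw H19.sll) (H5.loe bt H19.sll)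
    (H53.hie bt H98.mrg)

theorem fin : FinStmt :=
  H89.fin (H89.rkl H89.ewc H97.inj) (H89.rku H75.rk2 H97.inj) H64.pnu (H26.cnt goldfeld)
    (H62.los H5.twa) H51.rse

/-- **Erdos-Woods numbers.** Every certificate has at least two primes; the numbers with a certificate of
exactly two primes are the `d = p + l < l ^ 2` with primes `p`, `l`, `l ∣ p - 1`; up to `n` there are between
`(1/2 - ε) n / log n` and `(1 + ε) n / log n` of them; so there are at least `(1/2 - ε) n / log n`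
Erdos-Woods numbers up to `n`. -/
theorem result :
    (∀ ε : ℝ, 0 < ε → ∃ N : ℕ, ∀ n : ℕ, N ≤ n →
      (1 / 2 - ε) * (n / Real.log n) ≤ (ewCount n : ℝ) ∧
      (1 / 2 - ε) * (n / Real.log n) ≤ (r2Count n : ℝ) ∧
      (r2Count n : ℝ) ≤ (1 + ε) * (n / Real.log n)) ∧
    (∀ d : ℕ, IsRankTwo d ↔
      ∃ p l : ℕ, p.Prime ∧ l.Prime ∧ l ∣ p - 1 ∧ d = p + l ∧ d < l ^ 2) ∧
    (∀ a d : ℕ, 3 ≤ d → NoCoprimeInterior a d →
      2 ≤ {p : ℕ | p.Prime ∧ p < d ∧ ¬ p ∣ d ∧ p ∣ a + d}.ncard) := by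
  refine ⟨?_, ?_, H89.two_le⟩
  · intro ε hε
    obtain ⟨N, hN⟩ := fin ε hε
    refine ⟨N, fun n hn => ?_⟩
    obtain ⟨h1, h2, h3⟩ := hN n hn
    exact ⟨h1.trans (by exact_mod_cast h3), h1, h2⟩
  · intro d
    constructor
    · exact H75.rk2 d
    · rintro ⟨p, l, hp, hl, h1, rfl, h2⟩
      exact H89.ewc p l hp hl h1 h2

end Pool.Agent.Results.MP_b66c3b_nt.TwoPrimeCertificates
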